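import Pool.Agent.Helper97.ZRPDefs
import Pool.Agent.Helper97.ZRPProof
import Pool.Agent.Helper81.ZX.All

open MeasureTheory
open scoped ENNReal
open Pool.Agent.Helper97.ZRP

namespace Pool.Agent.Results.MP_773c46_pr.ZRPExplosion

/-- **Negative answer.** There are a rate function `g`, a nearest-neighbour kernel `p` on `ℤ³` with
`p(z) > 0` for all six unit vectors, and a configuration `η` of finite asymptotic density such that

* on some probability space there are zero-range processes `Y n` started from the restrictions of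
  `η` to the boxes `[-n, n]³` with `Y n ≤ Y (n + 1)` everywhere;
* for every family of zero-range processes `Y n` started from the restrictions of `η` to the boxes
  `[-n, n]³` and defined on one probability space (in particular for the basic coupling, for which
  `Y n` is nondecreasing in `n`), at some time `t ≤ 1` the limiting number of particles at the origin
  is infinite with probability at least `1/8`. -/
theorem result :
    ∃ (g : ℕ → ℝ) (p : Site 3 → ℝ) (η : Site 3 → ℕ),
      IsRate g ∧ IsKernel p ∧ IsNearestNeighbour p ∧ FiniteDensity η ∧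
      (∃ (Ω : Type) (_ : MeasurableSpace Ω) (P : Measure Ω) (_ : IsProbabilityMeasure P)
        (ξ : ℕ → Conf 3) (Y : ℕ → ℝ → Ω → Conf 3),
        (∀ n, IsRestriction η n (ξ n)) ∧ (∀ n, IsZRP g p (ξ n) P (Y n)) ∧
        ∀ n t ω, Y n t ω ≤ Y (n + 1) t ω) ∧
      ∀ (Ω : Type*) (_ : MeasurableSpace Ω) (P : Measure Ω) (_ : IsProbabilityMeasure P)
        (ξ : ℕ → Conf 3) (Y : ℕ → ℝ → Ω → Conf 3),
        (∀ n, IsRestriction η n (ξ n)) → (∀ n, IsZRP g p (ξ n) P (Y n)) →
        ∃ t : ℝ, 0 ≤ t ∧ t ≤ 1 ∧ (1 / 8 : ℝ≥0∞) ≤ P {ω | ⨆ n, (Y n t ω 0 : ℕ∞) = ⊤} := by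
  obtain ⟨g, p, η, hg, hp, hn, hd, h⟩ := main'
  exact ⟨g, p, η, hg, hp, hn, hd, Pool.Agent.Helper81.ZX.family hg hp η, h⟩

end Pool.Agent.Results.MP_773c46_pr.ZRPExplosion
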